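import Pool.Agent.H53.GR.Targets

/-!
# (CNS) consistency of the labels
-/

set_option autoImplicit false

namespace Pool.Agent.H34.GR

open Pool.Agent.H68.BP Pool.Agent.H58.SF Pool.Agent.H53.GR
open Pool.Agent.H53.GC (kS)

/-- equal letters of the pattern -/
private theorem pat_eq (r : Fin 3) (l l' : Fin 6) (h : kS r l = kS r l') {X : Type} (a b : X) :
    pat r a b l = pat r a b l' := by
  revert h
  unfold kS
  fin_cases r <;> fin_cases l <;> fin_cases l' <;> simp [pat]

private theorem lb_cases (z : Fin 3) : z = 0 ∨ z = 1 ∨ z = 2 := by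
  fin_cases z
  · exact Or.inl rfl
  · exact Or.inr (Or.inl rfl)
  · exact Or.inr (Or.inr rfl)

section

variable {k : ℕ} {lb : Fin k → Fin 3} {r : Fin 3} {i : Fin k}

private theorem kap0 (h : lb i = 0) : kap lb r i = id := by
  unfold kap
  rw [if_pos h]

private theorem kap1 (h : lb i = 1) : kap lb r i = kS r := by
  unfold kap
  rw [h]
  rfl

private theorem kap2 (h : lb i = 2) : kap lb r i = fun _ => 0 := by
  unfold kap
  rw [h]
  rfl

end

theorem pf_CNS : T_CNS := by
  intro τ M k J lb r j p h1 h2 h3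
  refine ⟨?_, ?_⟩
  · intro e he c d hcd
    by_cases e0 : ∃ i ∈ e.1, lb i = 0
    · obtain ⟨i, hi, h0⟩ := e0
      have h4 := hcd i hi
      rw [kap0 h0] at h4
      rw [show c = d from h4]
    by_cases e1 : ∃ i ∈ e.1, lb i = 1
    · obtain ⟨i, hi, h0⟩ := e1
      have h4 := hcd i hi
      rw [kap1 h0] at h4
      rcases h3 with ⟨a, b, hab⟩ | h3
      · rw [hab c, hab d, pat_eq r c d h4 a b]
      · exact absurd h0 (h3 i)
    refine h2 e he (lt_of_le_of_lt (Finset.card_le_card fun i hi => ?_) h1) c d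
    rw [Finset.mem_filter]
    refine ⟨Finset.mem_univ i, ?_⟩
    rcases lb_cases (lb i) with h | h | h
    · exact absurd ⟨i, hi, h⟩ e0
    · exact absurd ⟨i, hi, h⟩ e1
    · exact h
  · intro m q s hm hq hJ hpair
    have other : ∀ b : Fin m, ∃ c : Fin m, b ≠ c := by
      intro b
      by_cases h : b = ⟨0, by omega⟩
      · refine ⟨⟨1, by omega⟩, ?_⟩
        rw [h]
        simp
      · exact ⟨⟨0, by omega⟩, h⟩
    by_cases e0 : ∃ a, lb (q a) = 0
    · obtain ⟨a, h0⟩ := e0
      refine ⟨s a, fun c => ?_⟩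
      by_cases hac : a = c
      · subst hac
        rw [kap0 h0]
        rfl
      · obtain ⟨l, h4, h5⟩ := hpair a c hac
        rw [kap0 h0] at h4
        rw [← show l = s a from h4]
        exact h5
    by_cases e1 : ∃ a, lb (q a) = 1
    · obtain ⟨a, ha⟩ := e1
      obtain ⟨b, hab⟩ := other a
      obtain ⟨c, hc, -⟩ := hpair a b hab
      refine ⟨c, fun a' => ?_⟩
      by_cases haa : a = a'
      · subst haa
        exact hc
      obtain ⟨c', h4, h5⟩ := hpair a a' haa
      rcases lb_cases (lb (q a')) with h | h | h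
      · exact absurd ⟨a', h⟩ e0
      · rw [kap1 ha] at hc h4
        rw [kap1 h] at h5 ⊢
        have h6 : kS r c = kS r c' := by rw [hc, h4]
        rw [h6]
        exact h5
      · rw [kap2 h] at h5 ⊢
        exact h5
    · refine ⟨0, fun a => ?_⟩
      have h : lb (q a) = 2 := by
        rcases lb_cases (lb (q a)) with h | h | h
        · exact absurd ⟨a, h⟩ e0
        · exact absurd ⟨a, h⟩ e1
        · exact h
      obtain ⟨b, hab⟩ := other a
      obtain ⟨c, hc, -⟩ := hpair a b hab
      rw [kap2 h] at hc ⊢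
      exact hc

end Pool.Agent.H34.GR
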