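import Pool.Agent.H53.GR.Targets

/-!
# (ITR) iteration over finitely many tuples of parts
-/

set_option autoImplicit false

namespace Pool.Agent.H34.GR

open Pool.Agent.H68.BP Pool.Agent.H58.SF Pool.Agent.H53.GR
open Pool.Agent.H53.NR (pull)

section

variable {τ : Sig} {Q P P' P'' : Type}

private theorem SEmb_refl (π : P → Q) (𝕏 : Str τ P) : SEmb π 𝕏 π 𝕏 id :=
  ⟨Function.injective_id, fun _ => rfl, rfl⟩

private theorem SEmb_comp {π : P → Q} {𝕏 : Str τ P} {π' : P' → Q} {𝕏' : Str τ P'}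
    {π'' : P'' → Q} {𝕏'' : Str τ P''} {φ : P → P'} {ψ : P' → P''} (h : SEmb π 𝕏 π' 𝕏' φ)
    (h' : SEmb π' 𝕏' π'' 𝕏'' ψ) : SEmb π 𝕏 π'' 𝕏'' (fun x => ψ (φ x)) where
  inj := h'.inj.comp h.inj
  part x := by rw [h'.part, h.part]
  str := by
    have h1 : pull 𝕏'' (fun x => ψ (φ x)) = pull (pull 𝕏'' ψ) φ := rfl
    rw [h1, h'.str, h.str]

private theorem SCopy_map {π : P → Q} {𝕏 : Str τ P} {π' : P' → Q} {𝕏' : Str τ P'} {φ : P → P'}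
    (h : SEmb π 𝕏 π' 𝕏' φ) {a : ℕ} {α : Fin a → Q} {𝔸 : Str τ (Fin a)} {e : Fin a → P}
    (he : SCopy π 𝕏 α 𝔸 e) : SCopy π' 𝕏' α 𝔸 (fun i => φ (e i)) where
  part i := by rw [h.part, he.part]
  str := by
    have h1 : pull 𝕏' (fun i => φ (e i)) = pull (pull 𝕏' φ) e := rfl
    rw [h1, h.str, he.str]

end

theorem pf_ITR (h : T_STP) : T_ITR := by
  intro τ V Q κ _ _ 𝔹 M a 𝔸 l har
  induction l with
  | nil =>
    intro _ P _ π 𝕏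
    refine ⟨P, inferInstance, π, 𝕏, ?_, ?_⟩
    · intro χ
      exact ⟨id, SEmb_refl π 𝕏, fun α hα => absurd hα List.not_mem_nil⟩
    · intro 𝕐 _ _ hOK
      exact hOK
  | cons α l ih =>
    intro hl P _ π 𝕏
    have hα : StrictMono α := hl α List.mem_cons_self
    have hl' : ∀ β ∈ l, StrictMono β := fun β hβ => hl β (List.mem_cons_of_mem _ hβ)
    obtain ⟨P₁, fin₁, π₁, 𝕏₁, hχ₁, hOK₁⟩ := ih hl' P π 𝕏
    have := fin₁
    obtain ⟨P₂, fin₂, π₂, 𝕏₂, hχ₂, hOK₂⟩ := h τ V Q P₁ κ 𝔹 M π₁ 𝕏₁ a α 𝔸 har hα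
    refine ⟨P₂, fin₂, π₂, 𝕏₂, ?_, ?_⟩
    · intro χ
      obtain ⟨φ₁, hφ₁, hc₁⟩ := hχ₂ χ
      obtain ⟨φ₀, hφ₀, hc₀⟩ := hχ₁ (fun e => χ (fun i => φ₁ (e i)))
      refine ⟨fun x => φ₁ (φ₀ x), SEmb_comp hφ₀ hφ₁, ?_⟩
      intro β hβ e e' he he'
      rcases List.mem_cons.1 hβ with rfl | hβ
      · exact hc₁ _ _ (SCopy_map hφ₀ he) (SCopy_map hφ₀ he')
      · exact hc₀ β hβ e e' he he'
    · intro 𝕐 h1 h3 hOK
      have h4 : OK 𝔹 M 𝔸 := h3 (List.cons_ne_nil _ _)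
      exact hOK₂ 𝕐 (h1 α List.mem_cons_self) h4
        (hOK₁ 𝕐 (fun β hβ => h1 β (List.mem_cons_of_mem _ hβ)) (fun _ => h4) hOK)

end Pool.Agent.H34.GR
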