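import Pool.Agent.H53.GR.Targets

/-!
# (MIX) mixed families
-/

set_option autoImplicit false

namespace Pool.Agent.H34.GR

open Pool.Agent.H68.BP Pool.Agent.H58.SF Pool.Agent.H58.GR Pool.Agent.H53.GR
open Pool.Agent.H53.NR (pull)
open Pool.Agent.H53.GC (kS)
open Classical

private theorem pat_mem {Y : Type} (P : Y → Prop) (r : Fin 3) (x y : Y) (hx : P x) (hy : P y)
    (i : Fin 6) : P (pat r x y i) := by
  have h := pat_apply r x y i
  rw [h]
  fin_cases r <;> fin_cases i <;> first | exact hx | exact hy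

section fam

variable {σ τ : Sig} {V : Type} [LinearOrder V] {𝔸 : Str σ V} {𝔹 : Str τ V} {M k : ℕ}
  {H : Str τ (Fin 6 → V)}

/-- the binary families preserve the relations -/
private theorem g_fam (hV : T_VAL) (hC : T_CNS) (hS : Setp 𝔸 𝔹 M) (hG : GMap 𝔸 𝔹 M H)
    (hT : TInv 𝔹 H) {j : ℕ} (lb : Fin k → Fin 3) (r : Fin 3)
    (h2 : (Finset.univ.filter (fun i => lb i = 2)).card < j) :
    FamJ (pS 𝔸 𝔹 M k) j (Fin 2)
      (fun e w => fmK 𝔹 H (kap lb r) e (pat r (w 0) (w 1))) := by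
  intro l p hp ha
  have h1 := hV σ τ V 𝔸 𝔹 M H hS hG hT k (kap lb r) l (pat r (p 0) (p 1))
    (fun i => pat_mem (fun q => RK 𝔸 𝔹 M k l q) r (p 0) (p 1) (hp 0) (hp 1) i)
    (hC τ M k (fun i => ∃ a, l.2 a = i) lb r j (pat r (p 0) (p 1)) h2
      (fun e he hc c d => by
        have h4 : ∀ i, pat r (p 0) (p 1) i e = p 1 e := fun i =>
          pat_mem (fun q : So M k → Str τ (Fin k) => q e = p 1 e) r (p 0) (p 1)
            (ha e he hc 0 1) rfl i
        rw [h4 c, h4 d])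
      (Or.inl ⟨p 0, p 1, fun _ => rfl⟩))
  have h3 : (fun e => fmK 𝔹 H (kap lb r) e (pat r (p 0 e) (p 1 e))) =
      (fun e => fmK 𝔹 H (kap lb r) e (fun i => pat r (p 0) (p 1) i e)) := by
    funext e
    refine congrArg (fmK 𝔹 H (kap lb r) e) ?_
    funext i
    exact (pat_map (fun q : So M k → Str τ (Fin k) => q e) r (p 0) (p 1) i).symm
  change RK 𝔸 𝔹 M k l (fun e => fmK 𝔹 H (kap lb r) e (pat r (p 0 e) (p 1 e)))
  rw [h3]
  exact h1

/-- the families with six arguments preserve the relations -/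
private theorem h_fam (hV : T_VAL) (hC : T_CNS) (hS : Setp 𝔸 𝔹 M) (hG : GMap 𝔸 𝔹 M H)
    (hT : TInv 𝔹 H) {j : ℕ} (lb : Fin k → Fin 3)
    (h2 : (Finset.univ.filter (fun i => lb i = 2)).card < j) (h1 : ∀ i, lb i ≠ 1) :
    FamJ (pS 𝔸 𝔹 M k) j (Fin 6) (fun e w => fmK 𝔹 H (kap lb 0) e w) := by
  intro l p hp ha
  exact hV σ τ V 𝔸 𝔹 M H hS hG hT k (kap lb 0) l p hp
    (hC τ M k (fun i => ∃ a, l.2 a = i) lb 0 j p h2 (fun e he hc c d => ha e he hc c d)
      (Or.inr h1))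

/-- the families depend only on the shapes of the blocks of the sort -/
private theorem fmK_congr {κ κ' : Fin k → Fin 6 → Fin 6} (e : So M k) (w : Fin 6 → Str τ (Fin k))
    (h : ∀ i ∈ e.1, κ i = κ' i) : fmK 𝔹 H κ e w = fmK 𝔹 H κ' e w := by
  have h1 : Sh 𝔹 κ e.1 w = Sh 𝔹 κ' e.1 w := by
    funext v
    unfold Sh
    apply propext
    refine and_congr (forall₂_congr fun i hi => forall₂_congr fun j' hj => ?_)
      (forall₃_congr fun l z c => forall_congr' fun hz => ?_)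
    · rw [h i hi, h j' hj]
    · have h2 : ∀ d : Fin 6, (∀ i, κ (z i) d = κ (z i) (c i)) ↔
          (∀ i, κ' (z i) d = κ' (z i) (c i)) := fun d =>
        forall_congr' fun i => by rw [h (z i) (hz i)]
      refine iff_congr Iff.rfl (exists_congr fun d => and_congr (h2 d) Iff.rfl)
  unfold fmK
  rw [h1]

end fam

theorem pf_MIX (hV : T_VAL) (hC : T_CNS) (hE : Pool.Agent.H53.GR.T_EX) : T_MIX := by
  intro σ τ V _ 𝔸 𝔹 M H hS hG hT k j e e' hej hee
  have hcard : e.1.card = j := hej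
  have hsub : ¬ e.1 ⊆ e'.1 := hee
  obtain ⟨i₀, hi₀, hi₀'⟩ := Finset.not_subset.1 hsub
  set lG : Fin k → Fin 3 := fun i => if i ∈ e.1 then (if i ∈ e'.1 then 2 else 1) else 0 with hlG
  set lH : Fin k → Fin 3 := fun i => if i ∈ e.1 ∧ i ∈ e'.1 then 2 else 0 with hlH
  have hG2 : ∀ i, lG i = 2 → i ∈ e.1 ∧ i ∈ e'.1 := by
    intro i hi
    by_cases h1 : i ∈ e.1
    · by_cases h2 : i ∈ e'.1
      · exact ⟨h1, h2⟩
      · simp only [hlG, if_pos h1, if_neg h2] at hi
        exact absurd hi (by decide)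
    · simp only [hlG, if_neg h1] at hi
      exact absurd hi (by decide)
  have hH2 : ∀ i, lH i = 2 → i ∈ e.1 ∧ i ∈ e'.1 := by
    intro i hi
    by_contra h1
    simp only [hlH, if_neg h1] at hi
    exact absurd hi (by decide)
  have hH1 : ∀ i, lH i ≠ 1 := by
    intro i hi
    by_cases h1 : i ∈ e.1 ∧ i ∈ e'.1
    · simp only [hlH, if_pos h1] at hi
      exact absurd hi (by decide)
    · simp only [hlH, if_neg h1] at hi
      exact absurd hi (by decide)
  have hG0 : ∀ i ∈ e.1, lG i ≠ 0 := by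
    intro i hi h0
    by_cases h2 : i ∈ e'.1
    · simp only [hlG, if_pos hi, if_pos h2] at h0
      exact absurd h0 (by decide)
    · simp only [hlG, if_pos hi, if_neg h2] at h0
      exact absurd h0 (by decide)
  have hlt : ∀ lb : Fin k → Fin 3, (∀ i, lb i = 2 → i ∈ e.1 ∧ i ∈ e'.1) →
      (Finset.univ.filter (fun i => lb i = 2)).card < j := by
    intro lb hlb
    rw [← hcard]
    refine Finset.card_lt_card ⟨fun i hi => (hlb i (Finset.mem_filter.1 hi).2).1, fun hs => ?_⟩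
    exact hi₀' (hlb i₀ (Finset.mem_filter.1 (hs hi₀)).2).2
  refine ⟨fun f w => fmK 𝔹 H (kap lG 0) f (pat 0 (w 0) (w 1)),
    fun f w => fmK 𝔹 H (kap lH 0) f w,
    fun r f w => fmK 𝔹 H (kap lG r) f (pat r (w 0) (w 1)),
    g_fam hV hC hS hG hT lG 0 (hlt lG hG2), h_fam hV hC hS hG hT lH (hlt lH hH2) hH1,
    fun r => g_fam hV hC hS hG hT lG r (hlt lG hG2), ?_, ?_⟩
  · intro r w _
    exact hE σ τ V 𝔸 𝔹 M H hG hT k lG r e hG0 (w 0) (w 1)
  · intro r w _
    refine fmK_congr e' (pat r (w 0) (w 1)) fun i hi => ?_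
    unfold kap
    by_cases h1 : i ∈ e.1
    · have h2 : lG i = 2 := by simp only [hlG, if_pos h1, if_pos hi]
      have h3 : lH i = 2 := by simp only [hlH, if_pos (And.intro h1 hi)]
      rw [h2, h3]
      rfl
    · have h2 : lG i = 0 := by simp only [hlG, if_neg h1]
      have h3 : lH i = 0 := by simp only [hlH, if_neg (fun h : i ∈ e.1 ∧ i ∈ e'.1 => h1 h.1)]
      rw [h2, h3]
      rfl

end Pool.Agent.H34.GR
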